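import Pool.Agent.U280.OL.Stm

/-! Package Q10 of project OL: the constants of the lifting. -/

set_option autoImplicit false

open MeasureTheory Set Real

namespace Pool.Agent.U869.OL

open Pool.Agent.U280.OD Pool.Agent.U280.OE Pool.Agent.U280.OL

/-- the semiclassical constant as a function of `τ = d / 2` -/
noncomputable def K0 (τ : ℝ) : ℝ := τ / (1 + τ) * (4 * π) * Gamma (τ + 1) ^ (1 / τ)

theorem vol_ball (d : ℕ) (hd : 1 ≤ d) :
    (volume (Metric.ball (0 : EuclideanSpace ℝ (Fin d)) 1)).toReal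
      = π ^ ((d : ℝ) / 2) / Gamma ((d : ℝ) / 2 + 1) := by
  haveI : Nonempty (Fin d) := ⟨⟨0, hd⟩⟩
  have hG : 0 < Gamma ((d : ℝ) / 2 + 1) := Real.Gamma_pos_of_pos (by positivity)
  rw [EuclideanSpace.volume_ball]
  simp only [Fintype.card_fin, ENNReal.ofReal_one, one_pow, one_mul]
  have e3 : √π ^ d = π ^ ((d : ℝ) / 2) := by
    rw [Real.sqrt_eq_rpow, ← Real.rpow_natCast, ← Real.rpow_mul pi_pos.le]
    congr 1
    ring
  rw [e3, ENNReal.toReal_ofReal (by positivity)]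

theorem vol_pow (d : ℕ) (hd : 1 ≤ d) :
    (volume (Metric.ball (0 : EuclideanSpace ℝ (Fin d)) 1)).toReal ^ ((2 : ℝ) / d)
      = π / Gamma ((d : ℝ) / 2 + 1) ^ (1 / ((d : ℝ) / 2)) := by
  have hG : 0 < Gamma ((d : ℝ) / 2 + 1) := Real.Gamma_pos_of_pos (by positivity)
  have hd' : (0 : ℝ) < d := by exact_mod_cast hd
  have e : (2 : ℝ) / d = 1 / ((d : ℝ) / 2) := by field_simp
  rw [vol_ball d hd, e, Real.div_rpow (by positivity) hG.le, ← Real.rpow_mul pi_pos.le,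
    mul_one_div_cancel (by positivity), Real.rpow_one]

theorem Kcl_LTd (d : ℕ) (hd : 1 ≤ d) : LTd.Kcl d = K0 ((d : ℝ) / 2) := by
  have hG : 0 < Gamma ((d : ℝ) / 2 + 1) := Real.Gamma_pos_of_pos (by positivity)
  have hG' : 0 < Gamma ((d : ℝ) / 2 + 1) ^ (1 / ((d : ℝ) / 2)) := Real.rpow_pos_of_pos hG _
  have hd' : (0 : ℝ) < d := by exact_mod_cast hd
  have hpi := Real.pi_pos
  unfold LTd.Kcl K0
  rw [vol_pow d hd]
  have e6 : (d : ℝ) / 2 / (1 + (d : ℝ) / 2) = d / (d + 2) := by field_simp; ring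
  rw [e6]
  field_simp
  ring

theorem Kcl_OD (d : ℕ) (hd : 1 ≤ d) : Kcl d = K0 ((d : ℝ) / 2) := by
  rw [← Kcl_LTd d hd]
  unfold Kcl LTd.Kcl
  rw [mul_div_assoc]

theorem K0_pos {τ : ℝ} (h : 0 < τ) : 0 < K0 τ := by
  unfold K0
  have : 0 < Gamma (τ + 1) := Real.Gamma_pos_of_pos (by positivity)
  have hpi := Real.pi_pos
  positivity

theorem K0_rpow {τ : ℝ} (h : 0 < τ) :
    K0 τ ^ τ = (τ / (1 + τ)) ^ τ * (4 * π) ^ τ * Gamma (τ + 1) := by
  unfold K0
  have hG : 0 < Gamma (τ + 1) := Real.Gamma_pos_of_pos (by positivity)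
  have hpi := Real.pi_pos
  rw [Real.mul_rpow (by positivity) (by positivity), Real.mul_rpow (by positivity) (by positivity),
    ← Real.rpow_mul hG.le, one_div_mul_cancel h.ne', Real.rpow_one]

theorem cc_Gamma {t : ℝ} (ht : 0 < t) :
    LTd.cc (1 + t) * Gamma (t + 2) = (t / (1 + t)) ^ t * Gamma (t + 1) := by
  have e5 : LTd.cc (1 + t) = (t / (1 + t)) ^ t / (1 + t) := by
    unfold LTd.cc
    rw [show (1 + t - 1) = t by ring, Real.rpow_add (by positivity), Real.rpow_one,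
      Real.div_rpow ht.le (by positivity)]
    field_simp
  rw [e5, show t + 2 = (t + 1) + 1 by ring, Real.Gamma_add_one (by positivity)]
  field_simp
  ring

theorem JJ_eq {s t : ℝ} (hs : 0 < s) (ht : 0 < t) :
    LTd.JJ (t - s) (1 + s) * K0 s ^ s = K0 t ^ t := by
  have hGs : 0 < Gamma (s + 1) := Real.Gamma_pos_of_pos (by positivity)
  have hGt : 0 < Gamma (t + 1) := Real.Gamma_pos_of_pos (by positivity)
  have hpi := Real.pi_pos
  have h1 : LTd.JJ (t - s) (1 + s) = (LTd.cc (1 + t) * Gamma (t + 2)) * (4 * π) ^ (t - s) /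
      (LTd.cc (1 + s) * Gamma (s + 2)) := by
    unfold LTd.JJ
    rw [show (1 + s + (t - s)) = 1 + t by ring, show (1 + s + 1 + (t - s)) = t + 2 by ring,
      show (1 + s + 1) = s + 2 by ring]
    ring
  rw [h1, cc_Gamma ht, cc_Gamma hs, K0_rpow hs, K0_rpow ht, Real.rpow_sub (by positivity)]
  have hA : 0 < (s / (1 + s)) ^ s := by positivity
  have hB : 0 < (4 * π) ^ s := by positivity
  field_simp

theorem t_Q10 : Q10 := by
  intro k m hk c hc
  have hk' : (0 : ℝ) < k := by exact_mod_cast hk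
  have hm' : (0 : ℝ) ≤ m := by positivity
  have hs : (0 : ℝ) < (k : ℝ) / 2 := by positivity
  have ht : (0 : ℝ) < ((k : ℝ) + m) / 2 := by positivity
  have hK : Kcl k = K0 ((k : ℝ) / 2) := Kcl_OD k hk
  have hK2 : LTd.Kcl (k + m) = K0 (((k : ℝ) + m) / 2) := by
    rw [Kcl_LTd (k + m) (by omega)]
    push_cast
    rfl
  rw [hK, hK2]
  unfold LTd.bco
  have e1 : (m : ℝ) / 2 = ((k : ℝ) + m) / 2 - (k : ℝ) / 2 := by ring
  have e2 : (1 + (k : ℝ) / 2 - 1) = (k : ℝ) / 2 := by ring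
  have e3 : (1 + (k : ℝ) / 2 + (((k : ℝ) + m) / 2 - (k : ℝ) / 2) - 1) = ((k : ℝ) + m) / 2 := by
    ring
  rw [e1, e2, e3, Real.mul_rpow hc.le (K0_pos hs).le]
  have e4 : LTd.JJ (((k : ℝ) + m) / 2 - (k : ℝ) / 2) (1 + (k : ℝ) / 2) *
      (c ^ ((k : ℝ) / 2) * K0 ((k : ℝ) / 2) ^ ((k : ℝ) / 2)) =
      c ^ ((k : ℝ) / 2) * K0 (((k : ℝ) + m) / 2) ^ (((k : ℝ) + m) / 2) := by
    rw [← JJ_eq hs ht]
    ring
  rw [e4, Real.mul_rpow (by positivity) (by have := K0_pos ht; positivity),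
    ← Real.rpow_mul hc.le, ← Real.rpow_mul (K0_pos ht).le, mul_one_div_cancel ht.ne',
    Real.rpow_one]
  congr 2
  field_simp

end Pool.Agent.U869.OL
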